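import Mathlib
import Pool.Agent.helper70.LZ.SpecZ

/-!
# Project LE (MP_baa4d7_al), block BOUND-Z: row ZAX (expansion of `az`)
-/

set_option autoImplicit false

namespace Pool.Agent.LE

open Pool.Agent.helper58.DC Pool.Agent.DI Pool.Agent.GR Pool.Agent.OB Pool.Agent.DR Pool.Agent.FI Pool.Agent.FI3 Pool.Agent.FI4

theorem ZAX (hQRS : QRS_stmt) (hQCE : QCE_stmt) (hQEI : QEI_stmt) (hBLE : BLE_stmt) : ZAX_stmt := by
  intro p M hS G _ _ K θ η₀ hη₀ u hu hcen ψ hψ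
  have hBC : BC M K (Bl M K θ) := by
    obtain ⟨h1, -, -, -, -, -, -, h2⟩ := hBLE p M hS G K K le_rfl θ
    rw [h2] at h1
    exact h1
  have hfinI : (IrrOn K).Finite := IrrOn_fin K
  have hfinV : {v : G | v ∈ K ∧ PReg p v}.Finite := Set.toFinite _
  obtain ⟨-, hres⟩ := hQRS G ⊤ K le_top ψ hψ
  have h1 : ∀ v ∈ {v : G | v ∈ K ∧ PReg p v}, ψ (u * v) * η₀ v⁻¹ =
      ∑ᶠ η ∈ IrrOn K, mt K ψ η * (η u / η 1) * (η v * η₀ v⁻¹) := by
    intro v hv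
    rw [hres (u * v) (K.mul_mem hu hv.1), finsum_mem_mul' _ _ hfinI]
    refine finsum_mem_congr rfl fun η hη => ?_
    have h2 := (hQCE G K u hu hcen η hη).1 v
    have h3 : η 1 ≠ 0 := IrrOn_ne hη
    have h4 : η (u * v) = η u / η 1 * η v := by
      rw [div_mul_eq_mul_div, eq_div_iff h3]
      exact h2
    rw [h4]
    ring
  have h2 : ∀ η ∈ IrrOn K, ∑ᶠ v ∈ {v : G | v ∈ K ∧ PReg p v}, mt K ψ η * (η u / η 1) * (η v * η₀ v⁻¹) =
      mt K ψ η * (η u / η 1) * ∑ᶠ v ∈ {v : G | v ∈ K ∧ PReg p v}, η v * η₀ v⁻¹ := by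
    intro η _
    rw [mul_finsum_mem' _ _ hfinV]
  have h3 : az p K η₀ ψ u = ∑ᶠ η ∈ IrrOn K, mt K ψ η * (η u / η 1) * EE p K η η₀ := by
    unfold az EE
    rw [finsum_mem_congr rfl h1, finsum_mem_comm _ hfinV hfinI, finsum_mem_congr rfl h2, div_eq_mul_inv,
      finsum_mem_mul' _ _ hfinI]
    refine finsum_mem_congr rfl fun η _ => ?_
    rw [div_eq_mul_inv (∑ᶠ v ∈ {v : G | v ∈ K ∧ PReg p v}, η v * η₀ v⁻¹), mul_assoc (mt K ψ η * (η u / η 1))]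
  rw [h3]
  refine finsum_congr fun η => ?_
  by_cases h4 : η ∈ Bl M K θ
  · have h5 : η ∈ IrrOn K := h4.1
    simp only [h4, h5, finsum_true]
  · by_cases h5 : η ∈ IrrOn K
    · have h6 := ((hQEI p M hS G K (Bl M K θ) hBC).2.1 η₀ hη₀ η h5 h4).2
      simp only [h4, h5, finsum_true, finsum_false, h6, mul_zero]
    · simp only [h4, h5, finsum_false]

end Pool.Agent.LE
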